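import Pool.Agent.Lib.MP_06935a_al.Ins.Final

/-!
Fixed-point-free automorphisms of prime order `p` of periodic groups without `p`-elements: the
question is answered for each prime `p`. For `p = 2` every such automorphism is splitting; for
every odd prime `p` there are counterexamples, and they can be chosen to be `q`-groups with `p`
generators, for every odd prime `q` different from `p`.
-/

set_option autoImplicit false

namespace Pool.Agent.Results.MP_06935a_al.EveryOddPrime

open Pool.Agent.Lib.MP_06935a_al.Ins

universe u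

theorem result (p : ℕ) (hp : p.Prime) :
    (p = 2 → ∀ (G : Type u) [Group G], (∀ g : G, IsOfFinOrder g) →
      (∀ (g : G) (k : ℕ), orderOf g = p ^ k → g = 1) →
      ∀ α : MulAut G, orderOf α = p → (∀ g : G, α g = g → g = 1) →
      ∀ x : G, ((List.range p).map (fun i : ℕ => (α ^ i) x)).prod = 1) ∧
    (p ≠ 2 → ∀ q : ℕ, q.Prime → q ≠ 2 → q ≠ p →
      ∃ (G : Type) (_ : Group G) (x : ZMod p → G) (α : MulAut G),
        Subgroup.closure (Set.range x) = ⊤ ∧
        (∀ g : G, ∃ k : ℕ, orderOf g = q ^ k) ∧
        orderOf α = p ∧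
        (∀ i : ZMod p, α (x i) = x (i + 1)) ∧
        (∀ g : G, α g = g → g = 1) ∧
        ((List.range p).map (fun i : ℕ => (α ^ i) (x 0))).prod ≠ 1) := by
  constructor
  · rintro rfl
    intro G _ hper h2el α hα hfix x
    have hα2 : ∀ g : G, α (α g) = g := by
      intro g
      have h1 : α ^ 2 = 1 := by rw [← hα]; exact pow_orderOf_eq_one α
      have h2 : (α ^ 2) g = g := by rw [h1]; rfl
      rwa [pow_two, MulAut.mul_apply] at h2
    set z : G := x⁻¹ * α x with hz
    have hαz : α z = z⁻¹ := by
      rw [hz, map_mul, map_inv, hα2, mul_inv_rev, inv_inv]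
    have hodd : ¬ 2 ∣ orderOf z := by
      rintro ⟨m, hm⟩
      have hpos : 0 < orderOf z := orderOf_pos_iff.mpr (hper z)
      have h1 : orderOf (z ^ m) = 2 := by
        apply orderOf_eq_prime
        · rw [← pow_mul, mul_comm, ← hm]
          exact pow_orderOf_eq_one z
        · intro h
          have := Nat.le_of_dvd (by omega) (orderOf_dvd_of_pow_eq_one h)
          omega
      have h3 := h2el (z ^ m) 1 (by rw [h1, pow_one])
      rw [h3, orderOf_one] at h1
      omega
    obtain ⟨m, hm⟩ : ∃ m : ℕ, orderOf z = 2 * m + 1 := ⟨orderOf z / 2, by omega⟩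
    set w : G := z ^ (m + 1) with hw
    have hww : w * w = z := by
      rw [hw, ← pow_add]
      have h4 : m + 1 + (m + 1) = orderOf z + 1 := by omega
      rw [h4, pow_succ, pow_orderOf_eq_one, one_mul]
    have hαw : α w = w⁻¹ := by
      rw [hw, map_pow, hαz, inv_pow]
    have hfx : α (x * w) = x * w := by
      rw [map_mul, hαw]
      have h5 : α x = x * z := by rw [hz]; group
      rw [h5, ← hww]
      group
    have h6 := hfix _ hfx
    have h7 : w = x⁻¹ := (inv_eq_of_mul_eq_one_right h6).symm
    have h8 : α x = x⁻¹ := by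
      have h9 : α x = x * z := by rw [hz]; group
      rw [h9, ← hww, h7]
      group
    show ((List.range 2).map (fun i : ℕ => (α ^ i) x)).prod = 1
    simp only [List.range_succ, List.range_zero, List.nil_append, List.map_append, List.map_cons,
      List.map_nil, List.prod_append, List.prod_cons, List.prod_nil, mul_one, pow_zero, pow_one]
    rw [h8]
    simp
  · intro hp2 q hq hq2 hqp
    obtain ⟨G, hG, x, α, h1, h2, h3, h4, h5, h6⟩ := exists_group hp hq hp2 hq2 (Ne.symm hqp)
    refine ⟨G, hG, x, α, h1, ?_, h3, h4, h5, ?_⟩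
    · intro g
      obtain ⟨k, hk⟩ := h2 g
      obtain ⟨j, -, hj⟩ := (Nat.dvd_prime_pow hq).mp (orderOf_dvd_of_pow_eq_one hk)
      exact ⟨j, hj⟩
    · have h7 : ∀ i : ℕ, (α ^ i) (x 0) = x (i : ZMod p) := by
        intro i
        induction i with
        | zero => simp
        | succ i ih =>
          rw [pow_succ', MulAut.mul_apply, ih, h4]
          push_cast
          rfl
      have h8 : (fun i : ℕ => (α ^ i) (x 0)) = fun i : ℕ => x (i : ZMod p) := funext h7
      rw [h8]
      exact h6

end Pool.Agent.Results.MP_06935a_al.EveryOddPrime
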